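import Pool.Agent.Lib.HS13.Res0
import Pool.Agent.Lib.HS92.V0

/-! Resolvent estimate for variable coefficients. -/

open scoped ContDiff Topology
open Filter Finset

noncomputable section

namespace Pool.Agent.Lib.HS13

open Pool.Agent.HS92 (D smD df HB H1 H2)
open Pool.Agent.Lib.HS33 (H0 H Dv)

variable {E : Type} [NormedAddCommGroup E] [NormedSpace ℝ E] {ι : Type} [Fintype ι]

/-- The operator with variable complex coefficients. -/
def LC (v : ι → E) (a : ι → ι → E → ℂ) (w : E → ℂ) : E → ℂ :=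
  fun x => ∑ i, ∑ j, a i j x * D (v i) (D (v j) w) x

/-- The operator with variable real coefficients. -/
def LV (v : ι → E) (A : E → ι → ι → ℝ) (w : E → ℂ) : E → ℂ :=
  fun x => ∑ i, ∑ j, (A x i j : ℂ) * D (v i) (D (v j) w) x

theorem LC_smooth (v : ι → E) {a : ι → ι → E → ℂ} (ha : ∀ i j, ContDiff ℝ ∞ (a i j)) {w : E → ℂ}
    (hw : ContDiff ℝ ∞ w) : ContDiff ℝ ∞ (LC v a w) :=
  ContDiff.sum fun _ _ => ContDiff.sum fun _ _ => (ha _ _).mul (D_smooth (D_smooth hw _) _)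

theorem D_LC (v : ι → E) {a : ι → ι → E → ℂ} (ha : ∀ i j, ContDiff ℝ ∞ (a i j)) {w : E → ℂ}
    (hw : ContDiff ℝ ∞ w) (u x : E) :
    D u (LC v a w) x = LC v a (D u w) x + LC v (fun i j => D u (a i j)) w x := by
  have hs : ∀ i j, ContDiff ℝ ∞ (D (v i) (D (v j) w)) := fun i j => D_smooth (D_smooth hw _) _
  unfold LC
  rw [Pool.Agent.HS92.D_sum univ u fun i _ =>
    df (ContDiff.sum fun j _ => (ha i j).mul (hs i j)).contDiffAt, ← sum_add_distrib]
  refine sum_congr rfl fun i _ => ?_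
  rw [Pool.Agent.HS92.D_sum univ u fun j _ => df ((ha i j).mul (hs i j)).contDiffAt,
    ← sum_add_distrib]
  refine sum_congr rfl fun j _ => ?_
  rw [Pool.Agent.HS92.D_mul u (df (ha i j).contDiffAt) (df (hs i j).contDiffAt),
    D_comm' (D_smooth hw _) u, D_comm' hw u]

theorem H_LC (b : ι → E) (k : ℕ) {a : ι → ι → E → ℂ} (ha : ∀ i j, ContDiff ℝ ∞ (a i j)) {K : ℝ}
    (hK : ∀ i j, H b k (a i j) K) {w : E → ℂ} (hw : ContDiff ℝ ∞ w) {N : ℝ}
    (hN : H b (k + 2) w N) :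
    H b k (LC b a w) (Fintype.card ι * (Fintype.card ι * (2 ^ (k + 1) * K * N))) := by
  have hs : ∀ i j, ContDiff ℝ ∞ (D (b i) (D (b j) w)) := fun i j => D_smooth (D_smooth hw _) _
  have := H.sum (b := b) (k := k) univ
    (f := fun i x => ∑ j, a i j x * D (b i) (D (b j) w) x)
    (M := fun _ => ∑ _j : ι, 2 ^ (k + 1) * K * N)
    (fun i _ => ContDiff.sum fun j _ => (ha i j).mul (hs i j))
    (fun i _ => H.sum univ (fun j _ => (ha i j).mul (hs i j))
      fun j _ => H.mul (ha i j) (hs i j) (hK i j) ((hN.dv j).dv i))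
  simp only [sum_const, card_univ, nsmul_eq_mul] at this
  exact this

variable [FiniteDimensional ℝ E]

theorem resv_sup (v : ι → E) {A : E → ι → ι → ℝ}
    (ha : ∀ y, ∀ x : ι → ℝ, 0 ≤ ∑ i, ∑ j, A y i j * x i * x j) {K : ℝ}
    (hK : ∀ y i j, |A y i j| ≤ K) {w : E → ℂ} (hw : ContDiff ℝ ∞ w) {B : ℝ}
    (hB : ∀ x, ‖w x‖ ≤ B) {lam M : ℝ} (hl : 0 < lam)
    (h : ∀ x, ‖lam * w x - LV v A w x‖ ≤ M) (x : E) : lam * ‖w x‖ ≤ M :=
  maxc v A ha hK (hw.of_le (WithTop.coe_le_coe.2 le_top)) hB hl h x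

theorem resv_hol (v : ι → E) {A : E → ι → ι → ℝ}
    (ha : ∀ y, ∀ x : ι → ℝ, 0 ≤ ∑ i, ∑ j, A y i j * x i * x j) {K : ℝ}
    (hK : ∀ i j, H0 (fun x => (A x i j : ℂ)) K) {w : E → ℂ} (hw : ContDiff ℝ ∞ w) {B S : ℝ}
    (hB : ∀ x, ‖w x‖ ≤ B) (hS : ∀ i j x, ‖D (v i) (D (v j) w) x‖ ≤ S) {lam M : ℝ} (hl : 0 < lam)
    (h : ∀ x y, ‖(lam * w x - LV v A w x) - (lam * w y - LV v A w y)‖ ≤ M * √‖x - y‖) (x y : E) :
    lam * ‖w x - w y‖ ≤ (M + Fintype.card ι * (Fintype.card ι * (K * S))) * √‖x - y‖ := by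
  have hs : ∀ {g : E → ℂ}, ContDiff ℝ ∞ g → ContDiff ℝ ∞ fun z => g (z + (x - y)) :=
    fun hg => hg.comp (contDiff_id.add contDiff_const)
  have := resv_sup v ha (K := K) (fun y i j => by simpa using (hK i j).1 y)
    (w := fun z => w (z + (x - y)) - w z) ((hs hw).sub hw) (B := B + B)
    (fun z => (norm_sub_le _ _).trans (add_le_add (hB _) (hB _))) hl
    (M := (M + Fintype.card ι * (Fintype.card ι * (K * S))) * √‖x - y‖) (fun z => ?_) y
  · simpa using this
  · have e : LV v A (fun z => w (z + (x - y)) - w z) z = LV v A w (z + (x - y)) - LV v A w z -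
        ∑ i, ∑ j, ((A (z + (x - y)) i j : ℂ) - A z i j) * D (v i) (D (v j) w) (z + (x - y)) := by
      simp only [LV, ← sum_sub_distrib]
      refine sum_congr rfl fun i _ => sum_congr rfl fun j _ => ?_
      have e1 : D (v j) (fun z => w (z + (x - y)) - w z) =
          fun z => D (v j) w (z + (x - y)) - D (v j) w z := by
        funext z
        rw [D_sub' (hs hw) hw, D_shift]
      rw [e1, D_sub' (hs (D_smooth hw _)) (D_smooth hw _), D_shift]
      ring
    have h2 := h (z + (x - y)) z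
    rw [add_sub_cancel_left] at h2
    have h3 : ‖∑ i, ∑ j, ((A (z + (x - y)) i j : ℂ) - A z i j) *
        D (v i) (D (v j) w) (z + (x - y))‖ ≤
        Fintype.card ι * (Fintype.card ι * (K * √‖x - y‖ * S)) := by
      refine (norm_sum_le _ _).trans ?_
      rw [← nsmul_eq_mul, ← card_univ, ← sum_const]
      refine sum_le_sum fun i _ => (norm_sum_le _ _).trans ?_
      rw [← nsmul_eq_mul, ← sum_const]
      refine sum_le_sum fun j _ => ?_
      rw [norm_mul]
      have h4 := (hK i j).2 (z + (x - y)) z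
      rw [add_sub_cancel_left] at h4
      exact mul_le_mul h4 (hS i j _) (norm_nonneg _) ((norm_nonneg _).trans h4)
    rw [e]
    have e2 : (lam : ℂ) * (w (z + (x - y)) - w z) - (LV v A w (z + (x - y)) - LV v A w z -
        ∑ i, ∑ j, ((A (z + (x - y)) i j : ℂ) - A z i j) * D (v i) (D (v j) w) (z + (x - y))) =
        (lam * w (z + (x - y)) - LV v A w (z + (x - y)) - (lam * w z - LV v A w z)) +
        ∑ i, ∑ j, ((A (z + (x - y)) i j : ℂ) - A z i j) * D (v i) (D (v j) w) (z + (x - y)) := by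
      ring
    rw [e2]
    refine (norm_add_le _ _).trans ?_
    nlinarith

theorem resv0 (b : Module.Basis ι ℝ E) {κ K : ℝ} (hκ : 0 < κ) (hK : 0 ≤ K) :
    ∃ C, 0 ≤ C ∧ ∀ A : E → ι → ι → ℝ,
      (∀ x (ξ : ι → ℝ), κ * ∑ i, ξ i ^ 2 ≤ ∑ i, ∑ j, A x i j * ξ i * ξ j) →
      (∀ i j, H0 (fun x => (A x i j : ℂ)) K) → ∀ τ : ℝ, 1 ≤ τ → ∀ (w : E → ℂ) (B M : ℝ),
      ContDiff ℝ ∞ w → H b 2 w B → H0 (fun x => τ * w x - LV b A w x) M →
      H b 2 w (C * M) ∧ H0 w (C * M / τ) := by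
  obtain ⟨C, hC, hV⟩ := Pool.Agent.HS92.v0 (F := ℂ) b hκ hK
  set q : ℝ := Fintype.card ι * (Fintype.card ι * K) with hq
  have hq0 : 0 ≤ q := by positivity
  obtain ⟨ε, hε, h1⟩ : ∃ ε, 0 < ε ∧ (1 + C * q) * ε = 1 / 2 :=
    ⟨1 / 2 / (1 + C * q), by positivity, by field_simp⟩
  obtain ⟨C1, hC1, hI⟩ := Pool.Agent.HS92.intp (F := ℂ) b hε
  set c : ℝ := C * (3 + q * C1) with hc
  have hc0 : 0 ≤ c := by positivity
  refine ⟨(1 + q) * (2 * c) + 1, by positivity, fun A hA hAK τ hτ w B M hw hB h => ?_⟩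
  have hτ0 : 0 < τ := by linarith
  have hM := h.nonneg
  have ha0 : ∀ y, ∀ x : ι → ℝ, 0 ≤ ∑ i, ∑ j, A y i j * x i * x j := fun y x =>
    le_trans (by positivity) (hA y x)
  have s0 : ∀ x, τ * ‖w x‖ ≤ M :=
    resv_sup b ha0 (K := K) (fun y i j => by simpa using (hAK i j).1 y) hw hB.1.1 hτ0 h.1
  have s1 : ∀ x, ‖w x‖ ≤ M := fun x => by nlinarith [s0 x, norm_nonneg (w x)]
  have hol : ∀ S, (∀ i j x, ‖D (b i) (D (b j) w) x‖ ≤ S) → ∀ x y,
      τ * ‖w x - w y‖ ≤ (M + q * S) * √‖x - y‖ := fun S hS x y =>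
    (resv_hol b ha0 hAK hw hB.1.1 hS hτ0 h.2 x y).trans (le_of_eq (by rw [hq]; ring))
  have main : H2 b w (2 * (c * M)) := by
    refine Pool.Agent.HS92.absorb (fun N hN => ?_) (show H2 b w B from hB)
    have hN0 := hN.1.nonneg
    have hS := (hI w M N hw s1 hN).2
    have hS0 : 0 ≤ q * (ε * N + C1 * M) := by positivity
    have hb : HB (fun x => ∑ i, ∑ j, A x i j • D (b i) (D (b j) w) x)
        (2 * M + q * (ε * N + C1 * M)) (2 * M + q * (ε * N + C1 * M)) := by
      have e : ∀ x, ∑ i, ∑ j, A x i j • D (b i) (D (b j) w) x =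
          τ * w x - (τ * w x - LV b A w x) := fun x => by
        simp only [LV, Complex.real_smul]; ring
      have n1 : ∀ z : ℂ, ‖(τ : ℂ) * z‖ = τ * ‖z‖ := fun z => by
        rw [norm_mul, Complex.norm_real, Real.norm_of_nonneg hτ0.le]
      refine ⟨fun x => ?_, fun x y => ?_⟩
      · beta_reduce
        rw [e]
        refine (norm_sub_le _ _).trans ?_
        rw [n1]
        linarith [s0 x, h.1 x]
      · beta_reduce
        rw [e, e, sub_sub_sub_comm, ← mul_sub]
        refine (norm_sub_le _ _).trans ?_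
        rw [n1]
        linarith [hol _ (fun i j x => hS j i x) x y, h.2 x y]
    have := hV (fun i j x => A x i j) w (2 * M + q * (ε * N + C1 * M)) M N hA
      (fun i j => ⟨fun x => by simpa using (hAK i j).1 x, fun x y => by
        have := (hAK i j).2 x y
        rwa [← Complex.ofReal_sub, Complex.norm_real] at this⟩) hw hN s1 (by positivity)
      fun N1 hN1 => hb.mono (le_add_of_nonneg_right (mul_nonneg hK hN1.1.nonneg))
        (le_add_of_nonneg_right (mul_nonneg hK hN1.1.nonneg))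
    have hle : C * (2 * M + q * (ε * N + C1 * M) + M) ≤ N / 2 + c * M := by
      have : C * q * ε * N ≤ 1 / 2 * N := mul_le_mul_of_nonneg_right (by nlinarith) hN0
      rw [hc]; nlinarith
    exact H.mono (b := b) (k := 2) this hle
  have m2 : H b 2 w (2 * (c * M)) := main
  have hcM : 0 ≤ c * M := by positivity
  have hqc : 0 ≤ q * (c * M) := by positivity
  refine ⟨m2.mono (by nlinarith), fun x => ?_, fun x y => ?_⟩
  · rw [le_div_iff₀' hτ0]
    nlinarith [s0 x]
  · rw [div_mul_eq_mul_div, le_div_iff₀' hτ0]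
    refine (hol _ (fun i j x => ((m2.dv j).dv i).bound x) x y).trans
      (mul_le_mul_of_nonneg_right (by nlinarith) (Real.sqrt_nonneg _))

/-- Resolvent estimate for variable coefficients. -/
theorem resv (b : Module.Basis ι ℝ E) (k : ℕ) {κ K : ℝ} (hκ : 0 < κ) (hK : 0 ≤ K) :
    ∃ C, 0 ≤ C ∧ ∀ A : E → ι → ι → ℝ,
      (∀ x (ξ : ι → ℝ), κ * ∑ i, ξ i ^ 2 ≤ ∑ i, ∑ j, A x i j * ξ i * ξ j) →
      (∀ i j, ContDiff ℝ ∞ fun x => (A x i j : ℂ)) →
      (∀ i j, H b k (fun x => (A x i j : ℂ)) K) → ∀ τ : ℝ, 1 ≤ τ → ∀ (w : E → ℂ) (B M : ℝ),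
      ContDiff ℝ ∞ w → H b (k + 2) w B → H b k (fun x => τ * w x - LV b A w x) M →
      H b (k + 2) w (C * M) ∧ H b k w (C * M / τ) := by
  induction k with
  | zero =>
    obtain ⟨C, hC, h⟩ := resv0 b hκ hK
    exact ⟨C, hC, fun A hA _ hAK => h A hA hAK⟩
  | succ k ih =>
    obtain ⟨C, hC, ih⟩ := ih
    set q : ℝ := Fintype.card ι * (Fintype.card ι * (2 ^ (k + 1) * K * C)) with hq
    have hq0 : 0 ≤ q := by positivity
    refine ⟨C * (1 + q), by positivity, fun A hA hs hAK τ hτ w B M hw hB h => ?_⟩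
    have hτ0 : 0 < τ := by linarith
    have hM := h.nonneg
    have ih' := ih A hA hs (fun i j => (hAK i j).pred) τ hτ
    obtain ⟨a1, a2⟩ := ih' w B M hw hB.pred h.pred
    have hle : C * M ≤ C * (1 + q) * M := by
      have : 0 ≤ C * q * M := by positivity
      nlinarith
    have step : ∀ l, H b (k + 2) (D (b l) w) (C * (1 + q) * M) ∧
        H b k (D (b l) w) (C * (1 + q) * M / τ) := by
      intro l
      have hL : ContDiff ℝ ∞ (LV b A w) := LC_smooth b hs hw
      have hf : ContDiff ℝ ∞ fun x => (τ : ℂ) * w x - LV b A w x := (contDiff_const.mul hw).sub hL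
      have e : (fun x => (τ : ℂ) * D (b l) w x - LV b A (D (b l) w) x) = fun x =>
          D (b l) (fun x => (τ : ℂ) * w x - LV b A w x) x +
            LC b (fun i j => D (b l) fun x => (A x i j : ℂ)) w x := by
        funext x
        have := D_LC b hs hw (b l) x
        rw [D_sub' (contDiff_const.mul hw) hL, D_cmul hw]
        change D (b l) (LV b A w) x = LV b A (D (b l) w) x + _ at this
        rw [this]; ring
      have h2 := H.add (D_smooth hf (b l)) (LC_smooth b (fun i j => D_smooth (hs i j) (b l)) hw)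
        (h.dv l) (H_LC b k (fun i j => D_smooth (hs i j) (b l)) (fun i j => (hAK i j).dv l) hw a1)
      rw [← e] at h2
      have e2 : C * (M + Fintype.card ι * (Fintype.card ι * (2 ^ (k + 1) * K * (C * M)))) =
          C * (1 + q) * M := by rw [hq]; ring
      have := ih' _ B _ (D_smooth hw _) (hB.dv l) h2
      rwa [e2] at this
    exact ⟨⟨a1.h0.mono hle, fun l => (step l).1⟩,
      ⟨a2.h0.mono (div_le_div_of_nonneg_right hle hτ0.le), fun l => (step l).2⟩⟩

end Pool.Agent.Lib.HS13
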