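import Mathlib

/-! Maximum principle at a local maximum and for bounded functions on a vector space. -/

open scoped ContDiff Topology
open Filter Finset

noncomputable section

namespace Pool.Agent.Lib.HS13

variable {E : Type*} [NormedAddCommGroup E] [NormedSpace ℝ E]

theorem hess_nonpos {u : E → ℝ} {x : E} (hu : ContDiffAt ℝ 2 u x) (hm : IsLocalMax u x) (v : E) :
    fderiv ℝ (fderiv ℝ u) x v v ≤ 0 := by
  by_contra hc
  push Not at hc
  have hl : ∀ t : ℝ, HasDerivAt (fun t : ℝ => x + t • v) v t := fun t => by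
    simpa using ((hasDerivAt_id t).smul_const v).const_add x
  have ht : Tendsto (fun t : ℝ => x + t • v) (𝓝 0) (𝓝 x) := by
    simpa using (hl 0).continuousAt.tendsto
  have hev : ∀ᶠ y in 𝓝 x, DifferentiableAt ℝ u y :=
    (hu.eventually (by simp)).mono fun y hy => hy.differentiableAt (by simp)
  have h1 : deriv (fun t : ℝ => u (x + t • v)) =ᶠ[𝓝 0] fun t => fderiv ℝ u (x + t • v) v :=
    (ht.eventually hev).mono fun t h => (h.hasFDerivAt.comp_hasDerivAt t (hl t)).deriv
  have hd : DifferentiableAt ℝ (fderiv ℝ u) x :=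
    (hu.fderiv_right (m := 1) (by norm_num)).differentiableAt (by simp)
  have h2 : HasDerivAt (fun t : ℝ => fderiv ℝ u (x + t • v) v) (fderiv ℝ (fderiv ℝ u) x v v) 0 := by
    have h3 : HasFDerivAt (fderiv ℝ u) (fderiv ℝ (fderiv ℝ u) x) (x + (0 : ℝ) • v) := by
      simpa using hd.hasFDerivAt
    have h4 : HasDerivAt (fderiv ℝ u ∘ fun t : ℝ => x + t • v) (fderiv ℝ (fderiv ℝ u) x v) 0 :=
      HasFDerivAt.comp_hasDerivAt (l := fderiv ℝ u) (f := fun t : ℝ => x + t • v) (0 : ℝ) h3 (hl 0)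
    exact (ContinuousLinearMap.apply ℝ ℝ v).hasFDerivAt.comp_hasDerivAt (0 : ℝ) h4
  have h5 : deriv (deriv fun t : ℝ => u (x + t • v)) 0 = fderiv ℝ (fderiv ℝ u) x v v := by
    rw [h1.deriv_eq, h2.deriv]
  have hmax : IsLocalMax (fun t : ℝ => u (x + t • v)) 0 := by
    have : ∀ᶠ t in 𝓝 (0 : ℝ), u (x + t • v) ≤ u x := ht.eventually hm
    simpa [IsLocalMax, IsMaxFilter] using this
  have hcont : ContinuousAt (fun t : ℝ => u (x + t • v)) 0 :=
    ContinuousAt.comp_of_eq hu.continuousAt (hl 0).continuousAt (by simp)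
  have hmin := isLocalMin_of_deriv_deriv_pos (by rw [h5]; exact hc) hmax.deriv_eq_zero hcont
  have hc' : (fun t : ℝ => u (x + t • v)) =ᶠ[𝓝 0] fun _ => u (x + (0 : ℝ) • v) :=
    (hmax.and hmin).mono fun t h => le_antisymm h.1 h.2
  rw [hc'.deriv.deriv_eq] at h5
  simp at h5
  linarith

theorem trace_nonpos {ι : Type*} [Fintype ι] (a h : ι → ι → ℝ)
    (ha : ∀ x : ι → ℝ, 0 ≤ ∑ i, ∑ j, a i j * x i * x j) (hs : ∀ i j, h i j = h j i)
    (hh : ∀ x : ι → ℝ, ∑ i, ∑ j, h i j * x i * x j ≤ 0) : ∑ i, ∑ j, a i j * h i j ≤ 0 := by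
  have hp : (Matrix.of fun i j => -h i j).PosSemidef := by
    refine Matrix.PosSemidef.of_dotProduct_mulVec_nonneg ?_ fun x => ?_
    · ext i j
      simp [Matrix.conjTranspose_apply, hs i j]
    · have := hh x
      simp only [star_trivial, dotProduct, Matrix.mulVec, Matrix.of_apply, mul_sum]
      have e : ∑ i, ∑ j, x i * (-h i j * x j) = -∑ i, ∑ j, h i j * x i * x j := by
        simp only [← sum_neg_distrib]
        exact sum_congr rfl fun i _ => sum_congr rfl fun j _ => by ring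
      rw [e]; linarith
  obtain ⟨m, c, hc⟩ := Matrix.posSemidef_iff_eq_sum_vecMulVec.mp hp
  have e1 : ∀ i j, h i j = -∑ k, c k i * c k j := by
    intro i j
    have := congrFun (congrFun hc i) j
    simp only [Matrix.of_apply, Matrix.sum_apply, Matrix.vecMulVec_apply, star_trivial] at this
    linarith
  have e2 : ∑ i, ∑ j, a i j * h i j = -∑ k, ∑ i, ∑ j, a i j * c k i * c k j := by
    rw [sum_comm (s := univ) (t := univ) (f := fun k i => ∑ j, a i j * c k i * c k j),
      ← sum_neg_distrib]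
    refine sum_congr rfl fun i _ => ?_
    rw [sum_comm, ← sum_neg_distrib]
    refine sum_congr rfl fun j _ => ?_
    rw [e1, mul_neg, mul_sum]
    simp only [mul_assoc]
  rw [e2, neg_nonpos]
  exact sum_nonneg fun k _ => ha _

theorem dd_eq {F : Type*} [NormedAddCommGroup F] [NormedSpace ℝ F] {u : E → F} {x : E}
    (hu : ContDiffAt ℝ 2 u x) (p q : E) :
    fderiv ℝ (fun y => fderiv ℝ u y q) x p = fderiv ℝ (fderiv ℝ u) x p q := by
  have hd : DifferentiableAt ℝ (fderiv ℝ u) x :=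
    (hu.fderiv_right (m := 1) (by norm_num)).differentiableAt (by simp)
  rw [fderiv_clm_apply hd (differentiableAt_const q)]
  simp

/-- At a local maximum a degenerate elliptic operator gives a non-positive value. -/
theorem maxp {ι : Type*} [Fintype ι] (v : ι → E) (a : ι → ι → ℝ)
    (ha : ∀ x : ι → ℝ, 0 ≤ ∑ i, ∑ j, a i j * x i * x j) {u : E → ℝ} {x : E}
    (hu : ContDiffAt ℝ 2 u x) (hm : IsLocalMax u x) :
    ∑ i, ∑ j, a i j * fderiv ℝ (fun y => fderiv ℝ u y (v j)) x (v i) ≤ 0 := by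
  simp only [dd_eq hu]
  refine trace_nonpos a _ ha (fun i j => hu.isSymmSndFDerivAt (by simp) _ _) fun c => ?_
  have := hess_nonpos hu hm (∑ i, c i • v i)
  simp only [map_sum, map_smul, _root_.sum_apply, _root_.smul_apply,
    smul_eq_mul, mul_sum] at this
  rw [sum_comm]
  refine le_of_eq_of_le ?_ this
  exact sum_congr rfl fun i _ => sum_congr rfl fun j _ => by ring

/-- Maximum principle for functions bounded above on the whole space. -/
theorem maxb [FiniteDimensional ℝ E] {ι : Type*} [Fintype ι] (v : ι → E) (a : E → ι → ι → ℝ)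
    (ha : ∀ y, ∀ x : ι → ℝ, 0 ≤ ∑ i, ∑ j, a y i j * x i * x j) {K : ℝ}
    (hK : ∀ y i j, |a y i j| ≤ K) {u : E → ℝ} (hu : ContDiff ℝ 2 u) {B : ℝ} (hB : ∀ x, u x ≤ B)
    {lam M : ℝ} (hl : 0 < lam)
    (h : ∀ x, lam * u x -
      ∑ i, ∑ j, a x i j * fderiv ℝ (fun y => fderiv ℝ u y (v j)) x (v i) ≤ M) (x : E) :
    lam * u x ≤ M := by
  obtain ⟨T⟩ : Nonempty (E ≃L[ℝ] EuclideanSpace ℝ (Fin (Module.finrank ℝ E))) := ⟨toEuclidean⟩
  set ψ : E → ℝ := fun y => ‖T y‖ ^ 2 with hψ
  have hψ2 : ContDiff ℝ 2 ψ := (contDiff_norm_sq ℝ).comp T.contDiff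
  have d1 : ∀ y q, fderiv ℝ ψ y q = 2 * inner ℝ (T q) (T y) := by
    intro y q
    have := ((hasStrictFDerivAt_norm_sq (T y)).hasFDerivAt.comp y T.hasFDerivAt).fderiv
    have e : fderiv ℝ ψ y = _ := this
    rw [e]
    simp [real_inner_comm]
  have d2 : ∀ y p q, fderiv ℝ (fun y => fderiv ℝ ψ y q) y p = 2 * inner ℝ (T q) (T p) := by
    intro y p q
    simp only [d1]
    have := (((innerSL ℝ (T q)).comp (T : E →L[ℝ] _)).hasFDerivAt (x := y)).const_mul 2
    have e : fderiv ℝ (fun y => 2 * inner ℝ (T q) (T y)) y = _ := this.fderiv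
    rw [e]
    simp
  set C : ℝ := ∑ i, ∑ j, K * |2 * inner ℝ (T (v j)) (T (v i))| with hC
  have hψt : Tendsto ψ (cocompact E) atTop :=
    (tendsto_pow_atTop two_ne_zero).comp (Tendsto.comp (tendsto_norm_cocompact_atTop (E := EuclideanSpace ℝ (Fin (Module.finrank ℝ E))))
      T.toHomeomorph.isClosedEmbedding.tendsto_cocompact)
  have key : ∀ ε : ℝ, 0 < ε → lam * u x ≤ M + ε * (C + lam * ψ x) := by
    intro ε hε
    have hg : ContDiff ℝ 2 fun y => u y - ε * ψ y := hu.sub (contDiff_const.mul hψ2)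
    have ht : Tendsto (fun y => u y - ε * ψ y) (cocompact E) atBot := by
      refine tendsto_atBot_mono (fun y => sub_le_sub_right (hB y) _) ?_
      exact tendsto_atBot_add_const_left _ B (tendsto_neg_atTop_atBot.comp (hψt.const_mul_atTop hε))
    obtain ⟨z, hz⟩ := hg.continuous.exists_forall_ge ht
    have h1 := maxp v (a z) (ha z) hg.contDiffAt (x := z) (Eventually.of_forall hz)
    have e1 : ∀ p q, fderiv ℝ (fun y => fderiv ℝ (fun y => u y - ε * ψ y) y q) z p =
        fderiv ℝ (fun y => fderiv ℝ u y q) z p - ε * (2 * inner ℝ (T q) (T p)) := by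
      intro p q
      have hd : ∀ {f : E → ℝ}, ContDiff ℝ 2 f → Differentiable ℝ fun y => fderiv ℝ f y q :=
        fun hf => ((hf.fderiv_right (m := 1) (by norm_num)).clm_apply contDiff_const).differentiable
          (by simp)
      have e2 : (fun y => fderiv ℝ (fun y => u y - ε * ψ y) y q) =
          fun y => fderiv ℝ u y q - ε * fderiv ℝ ψ y q := by
        funext y
        rw [((hu.differentiable (by simp) y).hasFDerivAt.fun_sub
          ((hψ2.differentiable (by simp) y).hasFDerivAt.const_mul ε)).fderiv]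
        simp
      rw [e2, ((hd hu z).hasFDerivAt.fun_sub ((hd hψ2 z).hasFDerivAt.const_mul ε)).fderiv, ← d2 z]
      simp
    simp only [e1, mul_sub, sum_sub_distrib] at h1
    have h2 : ∑ i, ∑ j, a z i j * (ε * (2 * inner ℝ (T (v j)) (T (v i)))) ≤ ε * C := by
      rw [hC, mul_sum]
      refine sum_le_sum fun i _ => ?_
      rw [mul_sum]
      refine sum_le_sum fun j _ => ?_
      rw [mul_left_comm]
      refine mul_le_mul_of_nonneg_left ((le_abs_self _).trans ?_) hε.le
      rw [abs_mul]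
      exact mul_le_mul_of_nonneg_right (hK z i j) (abs_nonneg _)
    have h3 := h z
    have h4 := mul_le_mul_of_nonneg_left (hz x) hl.le
    have h5 : 0 ≤ lam * (ε * ψ z) := by positivity
    nlinarith
  have ht : Tendsto (fun ε : ℝ => M + ε * (C + lam * ψ x)) (𝓝[>] 0) (𝓝 M) := by
    have : Continuous fun ε : ℝ => M + ε * (C + lam * ψ x) := by fun_prop
    simpa using (this.tendsto 0).mono_left nhdsWithin_le_nhds
  exact ge_of_tendsto ht (eventually_nhdsWithin_of_forall fun ε hε => key ε hε)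

/-- Complex valued version. -/
theorem maxc [FiniteDimensional ℝ E] {ι : Type*} [Fintype ι] (v : ι → E) (a : E → ι → ι → ℝ)
    (ha : ∀ y, ∀ x : ι → ℝ, 0 ≤ ∑ i, ∑ j, a y i j * x i * x j) {K : ℝ}
    (hK : ∀ y i j, |a y i j| ≤ K) {w : E → ℂ} (hw : ContDiff ℝ 2 w) {B : ℝ}
    (hB : ∀ x, ‖w x‖ ≤ B) {lam M : ℝ} (hl : 0 < lam)
    (h : ∀ x, ‖lam * w x -
      ∑ i, ∑ j, a x i j * fderiv ℝ (fun y => fderiv ℝ w y (v j)) x (v i)‖ ≤ M) (x : E) :
    lam * ‖w x‖ ≤ M := by
  obtain ⟨c, hc1, hc⟩ : ∃ c : ℂ, ‖c‖ ≤ 1 ∧ (c * w x).re = ‖w x‖ := by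
    by_cases h0 : w x = 0
    · exact ⟨0, by simp, by simp [h0]⟩
    · have hn : (‖w x‖ : ℂ) ≠ 0 := by simpa using h0
      refine ⟨‖w x‖ / w x, by simp [h0], ?_⟩
      rw [div_mul_cancel₀ _ h0]; simp
  set P : ℂ →L[ℝ] ℝ := Complex.reCLM.comp (ContinuousLinearMap.mul ℝ ℂ c) with hP
  have hPa : ∀ z, P z = (c * z).re := fun z => rfl
  have hPle : ∀ z, P z ≤ ‖z‖ := fun z => by
    rw [hPa]
    refine (Complex.re_le_norm _).trans ?_
    rw [norm_mul]
    exact mul_le_of_le_one_left (norm_nonneg _) hc1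
  have e1 : ∀ {f : E → ℂ}, Differentiable ℝ f → ∀ y q,
      fderiv ℝ (fun y => P (f y)) y q = P (fderiv ℝ f y q) := by
    intro f hf y q
    have e : fderiv ℝ (fun y => P (f y)) y = _ := (P.hasFDerivAt.comp y (hf y).hasFDerivAt).fderiv
    rw [e]; rfl
  have hd : ∀ q, Differentiable ℝ fun y => fderiv ℝ w y q := fun q =>
    ((hw.fderiv_right (m := 1) (by norm_num)).clm_apply contDiff_const).differentiable (by simp)
  have := maxb v a ha hK (u := fun y => P (w y)) (P.contDiff.comp hw)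
    (fun y => (hPle _).trans (hB y)) hl (M := M) (fun y => ?_) x
  · rwa [hPa, hc] at this
  · refine le_trans (le_of_eq ?_) ((hPle _).trans (h y))
    simp only [e1 (hw.differentiable (by simp)), e1 (hd _), map_sub, map_sum, ← Complex.real_smul,
      map_smul, smul_eq_mul]

end Pool.Agent.Lib.HS13
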