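import Pool.Agent.Lib.HS21.LDefs

/-! Dense range: contraction, perturbation and continuity method, for size predicates. -/

open Filter Topology

noncomputable section

namespace Pool.Agent.Lib.HS13

open Pool.Agent.Lib.HS21

variable {V W : Type} [AddCommGroup V] [AddCommGroup W] {CV : AddSubgroup V} {CW : AddSubgroup W}
  {Q : W → ℝ → Prop} {T T' : V → W}

theorem dns_of_contr (hQ : Siz CW Q) (hT : Lin CV CW Q T) {θ : ℝ} (h0 : 0 ≤ θ) (h1 : θ < 1)
    (h : ∀ f ∈ CW, ∀ M, 0 < M → Q f M → ∃ v ∈ CV, Q (T v - f) (θ * M)) : Dns CV CW Q T := by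
  intro f hf ε hε
  obtain ⟨M, hM, hfM⟩ := hQ.ex f hf
  set η := (θ + 1) / 2 with hη
  have η0 : 0 < η := by linarith
  have η1 : η < 1 := by linarith
  have key : ∀ j : ℕ, ∃ v ∈ CV, Q (T v - f) (η ^ (j + 1) * M) := by
    intro j
    induction j with
    | zero =>
      obtain ⟨v, hv, h2⟩ := h f hf M hM hfM
      exact ⟨v, hv, hQ.mono _ (CW.sub_mem (hT.mem v hv) hf) _ _
        (by rw [zero_add, pow_one]; exact mul_le_mul_of_nonneg_right (by linarith) hM.le) h2⟩
    | succ j ih =>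
      obtain ⟨v, hv, h2⟩ := ih
      have m1 : T v - f ∈ CW := CW.sub_mem (hT.mem v hv) hf
      have p : 0 < η ^ (j + 1) * M := by positivity
      obtain ⟨u, hu, h3⟩ := h _ (CW.neg_mem m1) _ p (hQ.neg _ m1 _ h2)
      have h4 := hT.add v hv u hu ((η - θ) * (η ^ (j + 1) * M)) (mul_pos (by linarith) p)
      have m2 : T (v + u) - (T v + T u) ∈ CW :=
        CW.sub_mem (hT.mem _ (CV.add_mem hv hu)) (CW.add_mem (hT.mem v hv) (hT.mem u hu))
      have m3 : T u - -(T v - f) ∈ CW := CW.sub_mem (hT.mem u hu) (CW.neg_mem m1)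
      have h5 := hQ.add _ m2 _ m3 _ _ h4 h3
      refine ⟨v + u, CV.add_mem hv hu, ?_⟩
      have e1 : T (v + u) - (T v + T u) + (T u - -(T v - f)) = T (v + u) - f := by abel
      have e2 : (η - θ) * (η ^ (j + 1) * M) + θ * (η ^ (j + 1) * M) = η ^ (j + 1 + 1) * M := by ring
      rwa [e1, e2] at h5
  have ht := ((tendsto_pow_atTop_nhds_zero_of_lt_one η0.le η1).comp
    (tendsto_add_atTop_nat 1)).mul_const M
  rw [zero_mul] at ht
  obtain ⟨j, hj⟩ := (ht.eventually (gt_mem_nhds hε)).exists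
  obtain ⟨v, hv, h2⟩ := key j
  exact ⟨v, hv, hQ.mono _ (CW.sub_mem (hT.mem v hv) hf) _ _ hj.le h2⟩

theorem dns_perturb (hQ : Siz CW Q) (hT : Lin CV CW Q T) (hT' : Lin CV CW Q T')
    (h : Dns CV CW Q T) (h' : ∀ v ∈ CV, ∀ M, Q (T v) M → Q (T' v - T v) (M / 2)) :
    Dns CV CW Q T' := by
  refine dns_of_contr hQ hT' (θ := 7 / 8) (by norm_num) (by norm_num) fun f hf M hM hfM => ?_
  obtain ⟨v, hv, h1⟩ := h f hf (M / 4) (by linarith)
  have m1 : T v - f ∈ CW := CW.sub_mem (hT.mem v hv) hf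
  have h2 := hQ.add _ m1 _ hf _ _ h1 hfM
  rw [sub_add_cancel] at h2
  have h3 := hQ.add _ (CW.sub_mem (hT'.mem v hv) (hT.mem v hv)) _ m1 _ _ (h' v hv _ h2) h1
  rw [sub_add_sub_cancel] at h3
  exact ⟨v, hv, hQ.mono _ (CW.sub_mem (hT'.mem v hv) hf) _ _ (by linarith) h3⟩

/-- Continuity method along a path: `C` is the product of the Lipschitz constant of the path and of
the constant of the a priori estimate. -/
theorem dns_path (hQ : Siz CW Q) (T : ℝ → V → W) {s0 s1 C : ℝ} (hC : 0 ≤ C)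
    (hT : ∀ s ∈ Set.uIcc s0 s1, Lin CV CW Q (T s))
    (hL : ∀ s ∈ Set.uIcc s0 s1, ∀ r ∈ Set.uIcc s0 s1, ∀ v ∈ CV, ∀ M, Q (T r v) M →
      Q (T s v - T r v) (C * |s - r| * M))
    (hn : ∀ f ∈ CW, ∀ M, Q f M → 0 ≤ M)
    (h0 : Dns CV CW Q (T s0)) : Dns CV CW Q (T s1) := by
  obtain ⟨N, hN⟩ := exists_nat_gt (2 * (C * |s1 - s0|))
  have hN0 : (0 : ℝ) < N := lt_of_le_of_lt (by positivity) hN
  have mem : ∀ j : ℕ, j ≤ N → s0 + (j / N : ℝ) * (s1 - s0) ∈ Set.uIcc s0 s1 := by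
    intro j hj
    have h1 : (0 : ℝ) ≤ j / N := by positivity
    have h2 : (j / N : ℝ) ≤ 1 := by
      rw [div_le_one hN0]; exact_mod_cast hj
    rcases le_total s0 s1 with h | h
    · rw [Set.uIcc_of_le h]; constructor <;> nlinarith
    · rw [Set.uIcc_of_ge h]; constructor <;> nlinarith
  have key : ∀ j : ℕ, j ≤ N → Dns CV CW Q (T (s0 + (j / N : ℝ) * (s1 - s0))) := by
    intro j
    induction j with
    | zero => intro _; simpa using h0
    | succ j ih =>
      intro hj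
      have a := mem j (by omega)
      have b := mem (j + 1) hj
      refine dns_perturb hQ (hT _ a) (hT _ b) (ih (by omega)) fun v hv M hM => ?_
      refine hQ.mono _ (CW.sub_mem ((hT _ b).mem v hv) ((hT _ a).mem v hv)) _ _ ?_
        (hL _ b _ a v hv M hM)
      have e : s0 + ((j + 1 : ℕ) / N : ℝ) * (s1 - s0) - (s0 + (j / N : ℝ) * (s1 - s0)) =
          (s1 - s0) / N := by
        push_cast; ring
      have hM0 := hn _ ((hT _ a).mem v hv) M hM
      have h3 : C * (|s1 - s0| / N) ≤ 1 / 2 := by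
        rw [← mul_div_assoc, div_le_iff₀ hN0]; linarith
      rw [e, abs_div, abs_of_pos hN0]
      nlinarith
  have := key N le_rfl
  rwa [div_self hN0.ne', one_mul, add_sub_cancel] at this

end Pool.Agent.Lib.HS13
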