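import Pool.Agent.Lib.HS13.Max
import Pool.Agent.Lib.HS92.T2
import Pool.Agent.Lib.HS33.HK

/-! Resolvent bounds for constant coefficients: level zero, and one-dimensional interpolation. -/

open scoped ContDiff Topology
open Filter Finset

noncomputable section

namespace Pool.Agent.Lib.HS13

open Pool.Agent.HS92 (D smD df DD_comm D_add D_sum)

variable {E : Type} [NormedAddCommGroup E] [NormedSpace ℝ E] {ι : Type} [Fintype ι]

theorem D_smooth {F : Type} [NormedAddCommGroup F] [NormedSpace ℝ F] {f : E → F}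
    (hf : ContDiff ℝ ∞ f) (v : E) : ContDiff ℝ ∞ (D v f) :=
  contDiff_iff_contDiffAt.2 fun _ => smD v hf.contDiffAt

theorem line_deriv {F : Type} [NormedAddCommGroup F] [NormedSpace ℝ F] {f : E → F}
    (hf : ContDiff ℝ ∞ f) (x v : E) (t : ℝ) :
    HasDerivAt (fun t : ℝ => f (x + t • v)) (D v f (x + t • v)) t := by
  have hl : HasDerivAt (fun t : ℝ => x + t • v) v t := by
    simpa using ((hasDerivAt_id t).smul_const v).const_add x
  exact HasFDerivAt.comp_hasDerivAt (l := f) (f := fun t : ℝ => x + t • v) t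
    (df hf.contDiffAt).hasFDerivAt hl

theorem D_le_of_osc {F : Type} [NormedAddCommGroup F] [NormedSpace ℝ F] {f : E → F}
    (hf : ContDiff ℝ ∞ f) (x v : E) {A C : ℝ} (hA : ∀ y, ‖f y‖ ≤ A)
    (hC : ∀ t ∈ Set.Icc (0 : ℝ) 1, ‖D v f (x + t • v) - D v f x‖ ≤ C) :
    ‖D v f x‖ ≤ 2 * A + C := by
  have h := norm_image_sub_le_of_norm_deriv_le_segment_01'
    (f := fun t : ℝ => f (x + t • v) - t • D v f x)
    (f' := fun t : ℝ => D v f (x + t • v) - D v f x) (C := C)
    (fun t _ => by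
      simpa using ((line_deriv hf x v t).fun_sub
        ((hasDerivAt_id t).smul_const (D v f x))).hasDerivWithinAt)
    (fun t ht => hC t (Set.Ico_subset_Icc_self ht))
  simp only [one_smul, zero_smul, add_zero, sub_zero] at h
  have e : D v f x = f (x + v) - f x - (f (x + v) - D v f x - f x) := by abel
  have h1 := norm_sub_le (f (x + v) - f x) (f (x + v) - D v f x - f x)
  have h2 := norm_sub_le (f (x + v)) (f x)
  rw [← e] at h1
  linarith [hA (x + v), hA x]

theorem sqrt_step (x v : E) {t : ℝ} (ht : |t| ≤ 1) : √‖x + t • v - x‖ ≤ √‖v‖ := by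
  rw [add_sub_cancel_left, norm_smul]
  exact Real.sqrt_le_sqrt (mul_le_of_le_one_left (norm_nonneg _) ht)

theorem D_le_of_hol {F : Type} [NormedAddCommGroup F] [NormedSpace ℝ F] {f : E → F}
    (hf : ContDiff ℝ ∞ f) (x v : E) {A C : ℝ} (hC0 : 0 ≤ C) (hA : ∀ y, ‖f y‖ ≤ A)
    (hC : ∀ y z, ‖D v f y - D v f z‖ ≤ C * √‖y - z‖) : ‖D v f x‖ ≤ 2 * A + C * √‖v‖ :=
  D_le_of_osc hf x v hA fun t ht => (hC _ _).trans
    (mul_le_mul_of_nonneg_left (sqrt_step x v (abs_le.2 ⟨by linarith [ht.1], ht.2⟩)) hC0)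

theorem D_le_of_DD {F : Type} [NormedAddCommGroup F] [NormedSpace ℝ F] {f : E → F}
    (hf : ContDiff ℝ ∞ f) (x v : E) {A C : ℝ} (hA : ∀ y, ‖f y‖ ≤ A)
    (hC : ∀ y, ‖D v (D v f) y‖ ≤ C) : ‖D v f x‖ ≤ 2 * A + C := by
  refine D_le_of_osc hf x v hA fun t ht => ?_
  have h := norm_image_sub_le_of_norm_deriv_le_segment'
    (f := fun t : ℝ => D v f (x + t • v)) (f' := fun t : ℝ => D v (D v f) (x + t • v))
    (a := 0) (b := 1) (C := C)
    (fun s _ => (line_deriv (D_smooth hf v) x v s).hasDerivWithinAt) (fun s _ => hC _) t ht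
  simp only [zero_smul, add_zero, sub_zero] at h
  exact h.trans (mul_le_of_le_one_right ((norm_nonneg _).trans (hC x)) ht.2)

theorem DD_le_of_hol {F : Type} [NormedAddCommGroup F] [NormedSpace ℝ F] {f : E → F}
    (hf : ContDiff ℝ ∞ f) (x v : E) {A C : ℝ} (hC0 : 0 ≤ C) (hA : ∀ y, ‖f y‖ ≤ A)
    (hC : ∀ y z, ‖D v (D v f) y - D v (D v f) z‖ ≤ C * √‖y - z‖) :
    ‖D v (D v f) x‖ ≤ 4 * A + 2 * (C * √‖v‖) := by
  have neg : ∀ {g : E → F}, ContDiff ℝ ∞ g → ∀ t : ℝ,
      HasDerivAt (fun t : ℝ => g (x + (-t) • v)) (-D v g (x + (-t) • v)) t := by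
    intro g hg t
    have h := (line_deriv hg x v (-t)).scomp t (hasDerivAt_neg t)
    rw [neg_smul, one_smul] at h
    exact h
  set c := D v (D v f) x with hc
  have h1 : ∀ t ∈ Set.Icc (0 : ℝ) 1,
      ‖D v f (x + t • v) - D v f (x + (-t) • v) - (2 * t) • c‖ ≤ 2 * (C * √‖v‖) := by
    intro t ht
    have h := norm_image_sub_le_of_norm_deriv_le_segment'
      (f := fun t : ℝ => D v f (x + t • v) - D v f (x + (-t) • v) - (2 * t) • c)
      (f' := fun t : ℝ => D v (D v f) (x + t • v) - -D v (D v f) (x + (-t) • v) - (2 : ℝ) • c)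
      (a := 0) (b := 1) (C := 2 * (C * √‖v‖))
      (fun s _ => by
        simpa using ((((line_deriv (D_smooth hf v) x v s).fun_sub
          (neg (D_smooth hf v) s)).fun_sub
          (((hasDerivAt_id s).const_mul 2).smul_const c)).hasDerivWithinAt (s := Set.Icc 0 1)))
      (fun s hs => by
        have e : D v (D v f) (x + s • v) - -D v (D v f) (x + (-s) • v) - (2 : ℝ) • c =
            (D v (D v f) (x + s • v) - c) + (D v (D v f) (x + (-s) • v) - c) := by
          rw [two_smul]; abel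
        have hs1 : |s| ≤ 1 := abs_le.2 ⟨by linarith [hs.1], hs.2.le⟩
        have a1 := (hC (x + s • v) x).trans (mul_le_mul_of_nonneg_left (sqrt_step x v hs1) hC0)
        have a2 := (hC (x + (-s) • v) x).trans
          (mul_le_mul_of_nonneg_left (sqrt_step x v (by rwa [abs_neg])) hC0)
        rw [e]
        exact (norm_add_le _ _).trans (by linarith)) t ht
    simp only [zero_smul, add_zero, sub_zero, neg_zero, mul_zero, sub_self] at h
    exact h.trans (mul_le_of_le_one_right (by positivity) ht.2)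
  have h := norm_image_sub_le_of_norm_deriv_le_segment_01'
    (f := fun t : ℝ => f (x + t • v) + f (x + (-t) • v) - (t * t) • c)
    (f' := fun t : ℝ => D v f (x + t • v) - D v f (x + (-t) • v) - (2 * t) • c)
    (C := 2 * (C * √‖v‖))
    (fun s _ => by
      have := (((line_deriv hf x v s).fun_add (neg hf s)).fun_sub
        (((hasDerivAt_id s).fun_mul (hasDerivAt_id s)).smul_const c)).hasDerivWithinAt
        (s := Set.Icc 0 1)
      simpa [two_mul, sub_eq_add_neg] using this)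
    (fun t ht => h1 t (Set.Ico_subset_Icc_self ht))
  simp only [one_smul, zero_smul, add_zero, sub_zero, neg_zero, mul_zero, mul_one] at h
  set p := f (x + v)
  set q := f (x + (-1 : ℝ) • v)
  have e : c = (p + q - (f x + f x)) - (p + q - c - (f x + f x)) := by abel
  have h2 := norm_sub_le (p + q - (f x + f x)) (p + q - c - (f x + f x))
  rw [← e] at h2
  have h3 := norm_sub_le (p + q) (f x + f x)
  have h4 := norm_add_le p q
  have h5 := norm_add_le (f x) (f x)
  linarith [hA (x + v), hA x, hA (x + (-1 : ℝ) • v)]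

/-- The operator with constant real coefficients. -/
def L0 (v : ι → E) (a : ι → ι → ℝ) (w : E → ℂ) : E → ℂ :=
  fun x => ∑ i, ∑ j, a i j * D (v i) (D (v j) w) x

theorem D_cmul {f : E → ℂ} (hf : ContDiff ℝ ∞ f) (c : ℂ) (u x : E) :
    D u (fun y => c * f y) x = c * D u f x := by
  simp only [D]
  rw [((df hf.contDiffAt).hasFDerivAt.const_mul c).fderiv]
  simp

theorem D_sub' {f g : E → ℂ} (hf : ContDiff ℝ ∞ f) (hg : ContDiff ℝ ∞ g) (u x : E) :
    D u (fun y => f y - g y) x = D u f x - D u g x := by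
  simp only [D]
  rw [((df hf.contDiffAt).hasFDerivAt.fun_sub (df hg.contDiffAt).hasFDerivAt).fderiv]
  simp

theorem D_comm' {F : Type} [NormedAddCommGroup F] [NormedSpace ℝ F] {f : E → F}
    (hf : ContDiff ℝ ∞ f) (u v : E) : D u (D v f) = D v (D u f) :=
  funext fun _ => DD_comm u v hf.contDiffAt

theorem L0_smooth (v : ι → E) (a : ι → ι → ℝ) {w : E → ℂ} (hw : ContDiff ℝ ∞ w) :
    ContDiff ℝ ∞ (L0 v a w) :=
  ContDiff.sum fun _ _ => ContDiff.sum fun _ _ =>
    contDiff_const.mul (D_smooth (D_smooth hw _) _)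

theorem D_L0 (v : ι → E) (a : ι → ι → ℝ) {w : E → ℂ} (hw : ContDiff ℝ ∞ w) (u : E) :
    D u (L0 v a w) = L0 v a (D u w) := by
  funext x
  have hs : ∀ i j, ContDiff ℝ ∞ (D (v i) (D (v j) w)) := fun i j => D_smooth (D_smooth hw _) _
  unfold L0
  rw [D_sum univ u fun i _ => df (ContDiff.sum fun j _ => contDiff_const.mul (hs i j)).contDiffAt]
  refine sum_congr rfl fun i _ => ?_
  rw [D_sum univ u fun j _ => df (contDiff_const.mul (hs i j)).contDiffAt]
  refine sum_congr rfl fun j _ => ?_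
  rw [D_cmul (hs i j), D_comm' (D_smooth hw _) u, D_comm' hw u]

theorem D_res (v : ι → E) (a : ι → ι → ℝ) {w : E → ℂ} (hw : ContDiff ℝ ∞ w) (lam : ℝ) (u : E) :
    D u (fun x => lam * w x - L0 v a w x) = fun x => lam * D u w x - L0 v a (D u w) x := by
  funext x
  rw [D_sub' (contDiff_const.mul hw) (L0_smooth v a hw), D_cmul hw, D_L0 v a hw]

theorem D_shift {F : Type} [NormedAddCommGroup F] [NormedSpace ℝ F] (f : E → F) (h u : E) :
    D u (fun y => f (y + h)) = fun y => D u f (y + h) := by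
  funext y
  simp only [D]
  rw [fderiv_comp_add_right]

variable [FiniteDimensional ℝ E]

theorem res_sup (v : ι → E) {a : ι → ι → ℝ}
    (ha : ∀ x : ι → ℝ, 0 ≤ ∑ i, ∑ j, a i j * x i * x j) {w : E → ℂ} (hw : ContDiff ℝ ∞ w) {B : ℝ}
    (hB : ∀ x, ‖w x‖ ≤ B) {lam M : ℝ} (hl : 0 < lam)
    (h : ∀ x, ‖lam * w x - L0 v a w x‖ ≤ M) (x : E) : ‖w x‖ ≤ M / lam := by
  rw [le_div_iff₀' hl]
  refine maxc v (fun _ => a) (fun _ => ha) (K := ∑ i, ∑ j, |a i j|) (fun _ i j => ?_)
    (hw.of_le (WithTop.coe_le_coe.2 le_top)) hB hl h x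
  exact (single_le_sum (f := fun j => |a i j|) (fun _ _ => abs_nonneg _) (mem_univ j)).trans
    (single_le_sum (f := fun i => ∑ j, |a i j|) (fun _ _ => sum_nonneg fun _ _ => abs_nonneg _)
      (mem_univ i))

theorem res_hol (v : ι → E) {a : ι → ι → ℝ}
    (ha : ∀ x : ι → ℝ, 0 ≤ ∑ i, ∑ j, a i j * x i * x j) {w : E → ℂ} (hw : ContDiff ℝ ∞ w) {B : ℝ}
    (hB : ∀ x, ‖w x‖ ≤ B) {lam M : ℝ} (hl : 0 < lam)
    (h : ∀ x y, ‖(lam * w x - L0 v a w x) - (lam * w y - L0 v a w y)‖ ≤ M * √‖x - y‖) (x y : E) :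
    ‖w x - w y‖ ≤ M / lam * √‖x - y‖ := by
  have hs : ∀ {g : E → ℂ}, ContDiff ℝ ∞ g → ContDiff ℝ ∞ fun z => g (z + (x - y)) :=
    fun hg => hg.comp (contDiff_id.add contDiff_const)
  have := res_sup v ha (w := fun z => w (z + (x - y)) - w z) ((hs hw).sub hw) (B := B + B)
    (fun z => (norm_sub_le _ _).trans (add_le_add (hB _) (hB _))) hl (M := M * √‖x - y‖)
    (fun z => ?_) y
  · rw [div_mul_eq_mul_div]
    simpa using this
  · have e : L0 v a (fun z => w (z + (x - y)) - w z) z =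
        L0 v a w (z + (x - y)) - L0 v a w z := by
      simp only [L0, ← sum_sub_distrib, ← mul_sub]
      refine sum_congr rfl fun i _ => sum_congr rfl fun j _ => ?_
      have e1 : D (v j) (fun z => w (z + (x - y)) - w z) =
          fun z => D (v j) w (z + (x - y)) - D (v j) w z := by
        funext z
        rw [D_sub' (hs hw) hw, D_shift]
      rw [e1, D_sub' (hs (D_smooth hw _)) (D_smooth hw _), D_shift]
    have h2 := h (z + (x - y)) z
    rw [add_sub_cancel_left] at h2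
    rw [e]
    refine le_trans (le_of_eq ?_) h2
    congr 1
    ring

/-- Complex version of the constant coefficient Schauder estimate. -/
theorem t2c (b : Module.Basis ι ℝ E) {κ : ℝ} (hκ : 0 < κ) (K : ℝ) :
    ∃ C, 0 ≤ C ∧ ∀ (a : ι → ι → ℝ) (w : E → ℂ) (M B : ℝ),
      (∀ ξ : ι → ℝ, κ * ∑ i, ξ i ^ 2 ≤ ∑ i, ∑ j, a i j * ξ i * ξ j) → (∀ i j, |a i j| ≤ K) →
      ContDiff ℝ ∞ w → (∀ x, ‖w x‖ ≤ B) → 0 ≤ M →
      (∀ x y, ‖L0 b a w x - L0 b a w y‖ ≤ M * √‖x - y‖) →
      ∀ i j x y, ‖D (b i) (D (b j) w) x - D (b i) (D (b j) w) y‖ ≤ C * M * √‖x - y‖ := by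
  obtain ⟨C, hC, H⟩ := Pool.Agent.HS92.t2 b hκ K
  refine ⟨2 * C, by positivity, fun a w M B ha hK hw hB hM h i j x y => ?_⟩
  have key : ∀ P : ℂ →L[ℝ] ℝ, (∀ z, |P z| ≤ ‖z‖) →
      |P (D (b i) (D (b j) w) x - D (b i) (D (b j) w) y)| ≤ C * M * √‖x - y‖ := by
    intro P hP
    have e1 : ∀ {f : E → ℂ}, ContDiff ℝ ∞ f → ∀ q,
        D q (fun y => P (f y)) = fun y => P (D q f y) := by
      intro f hf q
      funext y
      have e : fderiv ℝ (fun y => P (f y)) y = _ :=
        (P.hasFDerivAt.comp y (df hf.contDiffAt).hasFDerivAt).fderiv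
      simp only [D]
      rw [e]; rfl
    have := H a (fun y => P (w y)) M B ha hK (P.contDiff.comp hw) (fun y => (hP _).trans (hB y)) hM
      (fun x y => ?_) i j x y
    · simpa only [e1 hw, e1 (D_smooth hw _), map_sub] using this
    · refine le_trans (le_of_eq ?_) ((hP _).trans (h x y))
      simp only [e1 hw, e1 (D_smooth hw _), L0, map_sub, map_sum, ← Complex.real_smul, map_smul,
        smul_eq_mul]
  have h1 := key Complex.reCLM Complex.abs_re_le_norm
  have h2 := key Complex.imCLM Complex.abs_im_le_norm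
  refine (Complex.norm_le_abs_re_add_abs_im _).trans ?_
  simp only [Complex.reCLM_apply, Complex.imCLM_apply] at h1 h2
  linarith

open Pool.Agent.Lib.HS33 (H0 H Dv)

theorem res_H (v : ι → E) {a : ι → ι → ℝ}
    (ha : ∀ x : ι → ℝ, 0 ≤ ∑ i, ∑ j, a i j * x i * x j) {lam : ℝ} (hl : 0 < lam) {σ : Type}
    (b : σ → E) (k : ℕ) : ∀ {w : E → ℂ} {B M : ℝ}, ContDiff ℝ ∞ w → H b k w B →
    H b k (fun x => lam * w x - L0 v a w x) M → H b k w (M / lam) := by
  have h0 : ∀ {w : E → ℂ} {B M : ℝ}, ContDiff ℝ ∞ w → H0 w B →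
      H0 (fun x => lam * w x - L0 v a w x) M → H0 w (M / lam) := fun hw hB h =>
    ⟨res_sup v ha hw hB.1 hl h.1, res_hol v ha hw hB.1 hl h.2⟩
  induction k with
  | zero => exact h0
  | succ k ih =>
    intro w B M hw hB h
    refine ⟨h0 hw hB.1 h.1, fun i => ih (D_smooth hw _) (hB.2 i) ?_⟩
    have := h.2 i
    have e := D_res v a hw lam (b i)
    exact e ▸ this

theorem H_two (b : Module.Basis ι ℝ E) : ∃ C, 0 ≤ C ∧ ∀ (w : E → ℂ) (A : ℝ), ContDiff ℝ ∞ w →
    (∀ x, ‖w x‖ ≤ A) →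
    (∀ i j x y, ‖D (b i) (D (b j) w) x - D (b i) (D (b j) w) y‖ ≤ A * √‖x - y‖) →
    H b 2 w (C * A) := by
  obtain ⟨c, hc, hop⟩ := b.exists_opNorm_le (F := ℂ)
  set s : ℝ := ∑ i, √‖b i‖ with hs
  have hs0 : 0 ≤ s := sum_nonneg fun _ _ => Real.sqrt_nonneg _
  have hsi : ∀ i, √‖b i‖ ≤ s := fun i =>
    single_le_sum (f := fun i => √‖b i‖) (fun _ _ => Real.sqrt_nonneg _) (mem_univ i)
  refine ⟨(c + 2) * (13 + 5 * s), by positivity, fun w A hw hA h => ?_⟩
  have hA0 : 0 ≤ A := (norm_nonneg _).trans (hA 0)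
  have hAs : ∀ i, A * √‖b i‖ ≤ A * s := fun i => mul_le_mul_of_nonneg_left (hsi i) hA0
  have hsA : 0 ≤ A * s := by positivity
  have h1 : ∀ j x, ‖D (b j) w x‖ ≤ 6 * A + 2 * (A * s) := by
    intro j x
    have := D_le_of_DD hw x (b j) hA fun y => DD_le_of_hol hw y (b j) hA0 hA (h j j)
    linarith [hAs j]
  have h2 : ∀ i j x, ‖D (b i) (D (b j) w) x‖ ≤ 12 * A + 5 * (A * s) := by
    intro i j x
    have := D_le_of_hol (D_smooth hw (b j)) x (b i) hA0 (h1 j) (h i j)
    linarith [hAs i]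
  set T : ℝ := (13 + 5 * s) * A with hT
  have hT0 : 0 ≤ T := by positivity
  have key : ∀ g : E → ℂ, ContDiff ℝ ∞ g → (∀ x, ‖g x‖ ≤ T) → (∀ i x, ‖D (b i) g x‖ ≤ T) →
      H0 g ((c + 2) * (13 + 5 * s) * A) := by
    intro g hg g0 g1
    refine (H0.of_fderiv (hg.differentiable (by simp)) one_pos le_rfl g0
      (fun x => hop hT0 fun i => g1 i x)).mono (le_of_eq ?_)
    rw [hT]; ring
  have hle : T ≤ (c + 2) * (13 + 5 * s) * A := by
    rw [mul_assoc, ← hT]; nlinarith
  have t0 : A ≤ T := by rw [hT]; nlinarith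
  have t1 : 6 * A + 2 * (A * s) ≤ T := by rw [hT]; nlinarith
  have t2 : 12 * A + 5 * (A * s) ≤ T := by rw [hT]; nlinarith
  refine ⟨key w hw (fun x => (hA x).trans t0) fun i x => (h1 i x).trans t1, fun j =>
    ⟨key _ (D_smooth hw _) (fun x => (h1 j x).trans t1) fun i x => (h2 i j x).trans t2,
      fun i => ⟨fun x => ((h2 i j x).trans t2).trans hle, fun x y => (h i j x y).trans ?_⟩⟩⟩
  exact mul_le_mul_of_nonneg_right (t0.trans hle) (Real.sqrt_nonneg _)

/-- Resolvent estimate for constant coefficients, uniform in the coefficients, in `lam` and in `k`. -/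
theorem res (b : Module.Basis ι ℝ E) {κ : ℝ} (hκ : 0 < κ) (K : ℝ) :
    ∃ C, 0 ≤ C ∧ ∀ (a : ι → ι → ℝ) (lam : ℝ),
      (∀ ξ : ι → ℝ, κ * ∑ i, ξ i ^ 2 ≤ ∑ i, ∑ j, a i j * ξ i * ξ j) → (∀ i j, |a i j| ≤ K) →
      1 ≤ lam → ∀ (k : ℕ) (w : E → ℂ) (B M : ℝ), ContDiff ℝ ∞ w → H b k w B →
      H b k (fun x => lam * w x - L0 b a w x) M → H b k w (M / lam) ∧ H b (k + 2) w (C * M) := by
  obtain ⟨C1, hC1, h1⟩ := t2c b hκ K
  obtain ⟨C2, hC2, h2⟩ := H_two b
  refine ⟨(C2 + 1) * (1 + 2 * C1), by positivity, fun a lam ha hK hl k => ?_⟩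
  have hl0 : 0 < lam := by linarith
  have ha0 : ∀ x : ι → ℝ, 0 ≤ ∑ i, ∑ j, a i j * x i * x j := fun x =>
    le_trans (by positivity) (ha x)
  have base : ∀ (w : E → ℂ) (B M : ℝ), ContDiff ℝ ∞ w → H0 w B →
      H0 (fun x => lam * w x - L0 b a w x) M → H b 2 w ((C2 + 1) * (1 + 2 * C1) * M) := by
    intro w B M hw hB h
    have hM := h.nonneg
    have g0 : H0 w (M / lam) := res_H b ha0 hl0 b 0 hw hB h
    have g1 : ∀ x y, ‖L0 b a w x - L0 b a w y‖ ≤ 2 * M * √‖x - y‖ := by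
      intro x y
      have e : L0 b a w x - L0 b a w y = lam * (w x - w y) -
          ((lam * w x - L0 b a w x) - (lam * w y - L0 b a w y)) := by ring
      have a1 : ‖(lam : ℂ) * (w x - w y)‖ ≤ M * √‖x - y‖ := by
        rw [norm_mul, Complex.norm_real, Real.norm_of_nonneg hl0.le]
        refine (mul_le_mul_of_nonneg_left (g0.2 x y) hl0.le).trans (le_of_eq ?_)
        field_simp
      rw [e]
      refine (norm_sub_le _ _).trans ?_
      linarith [h.2 x y]
    have g2 := h1 a w (2 * M) B ha hK hw hB.1 (by positivity) g1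
    have g3 : M / lam ≤ M := div_le_self hM hl
    have hCM : 0 ≤ C1 * M := by positivity
    refine (h2 w ((1 + 2 * C1) * M) hw (fun x => (g0.1 x).trans (by nlinarith))
      fun i j x y => (g2 i j x y).trans
        (mul_le_mul_of_nonneg_right (by nlinarith) (Real.sqrt_nonneg _))).mono ?_
    have : 0 ≤ (1 + 2 * C1) * M := by positivity
    nlinarith
  have top : ∀ (w : E → ℂ) (B M : ℝ), ContDiff ℝ ∞ w → H b k w B →
      H b k (fun x => lam * w x - L0 b a w x) M →
      H b (k + 2) w ((C2 + 1) * (1 + 2 * C1) * M) := by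
    induction k with
    | zero => exact base
    | succ k ih =>
      intro w B M hw hB h
      refine ⟨(base w B M hw hB.1 h.1).1, fun i => ih _ B M (D_smooth hw _) (hB.2 i) ?_⟩
      have := h.2 i
      have e := D_res b a hw lam (b i)
      exact e ▸ this
  exact fun w B M hw hB h => ⟨res_H b ha0 hl0 b k hw hB h, top w B M hw hB h⟩

end Pool.Agent.Lib.HS13
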